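import Pool.Agent.Helper54.SP.StmtsP

/-! # Module MEMR: membership in the facet list in terms of real one-sidedness -/

set_option autoImplicit false

namespace Pool.Agent.Helper54.SP

open Finset

theorem memr_subs (n : ℕ) : ∀ (d lo : ℕ) (f : List ℕ), f ∈ subs d lo n ↔
    (f.Pairwise (· < ·) ∧ f.length = d ∧ ∀ i ∈ f, lo ≤ i ∧ i < n) := by
  intro d
  induction d with
  | zero =>
    intro lo f
    simp only [subs, List.mem_singleton]
    constructor
    · rintro rfl
      simp
    · rintro ⟨-, h, -⟩
      exact List.length_eq_zero_iff.1 h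
  | succ d ih =>
    intro lo f
    simp only [subs, List.mem_flatMap, List.mem_range]
    constructor
    · rintro ⟨i, hi, hf⟩
      by_cases hlo : lo ≤ i
      · rw [if_pos hlo, List.mem_map] at hf
        obtain ⟨g, hg, rfl⟩ := hf
        rw [ih] at hg
        obtain ⟨h1, h2, h3⟩ := hg
        refine ⟨?_, ?_, ?_⟩
        · rw [List.pairwise_cons]
          refine ⟨?_, h1⟩
          intro j hj
          have := (h3 j hj).1
          omega
        · rw [List.length_cons, h2]
        · intro j hj
          rcases List.mem_cons.1 hj with rfl | hj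
          · exact ⟨hlo, hi⟩
          · have := h3 j hj
            omega
      · rw [if_neg hlo] at hf
        exact absurd hf (List.not_mem_nil)
    · rintro ⟨h1, h2, h3⟩
      cases f with
      | nil => simp at h2
      | cons i g =>
        have hi := h3 i (List.mem_cons_self)
        refine ⟨i, hi.2, ?_⟩
        rw [if_pos hi.1, List.mem_map]
        refine ⟨g, ?_, rfl⟩
        rw [ih]
        rw [List.pairwise_cons] at h1
        refine ⟨h1.2, by simpa using h2, ?_⟩
        intro j hj
        have e1 := h1.1 j hj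
        have e2 := h3 j (List.mem_cons_of_mem _ hj)
        omega

theorem memr_oneS (χ : List ℕ → Bool) (n : ℕ) (f : List ℕ) : oneS χ n f = true ↔
    ∀ x, x < n → ∀ y, y < n → x ∉ f → y ∉ f → χ (f ++ [x]) = χ (f ++ [y]) := by
  unfold oneS
  simp only [List.all_eq_true, List.mem_range, Bool.or_eq_true, List.elem_iff, beq_iff_eq]
  constructor
  · intro h x hx y hy h1 h2
    rcases h x hx y hy with (h3 | h3) | h3
    · exact absurd h3 h1
    · exact absurd h3 h2
    · exact h3
  · intro h x hx y hy
    by_cases h1 : x ∈ f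
    · exact Or.inl (Or.inl h1)
    · by_cases h2 : y ∈ f
      · exact Or.inl (Or.inr h2)
      · exact Or.inr (h x hx y hy h1 h2)

theorem memr_facets (χ : List ℕ → Bool) (d n : ℕ) (f : List ℕ) : f ∈ facets χ d n ↔
    f ∈ subs d 0 n ∧ oneS χ n f = true := by
  unfold facets
  rw [List.mem_flatMap]
  constructor
  · rintro ⟨g, hg, hf⟩
    by_cases h : oneS χ n g = true
    · rw [if_pos h, List.mem_singleton] at hf
      subst hf
      exact ⟨hg, h⟩
    · rw [if_neg h] at hf
      exact absurd hf (List.not_mem_nil)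
  · rintro ⟨h1, h2⟩
    refine ⟨f, h1, ?_⟩
    rw [if_pos h2]
    exact List.mem_singleton_self f

theorem memr_sign (a b : Bool) (A B : ℝ) (hA : 0 < sb a * A) (hB : 0 < sb b * B) :
    0 < A * B ↔ a = b := by
  cases a <;> cases b <;> simp only [sb, if_true, if_false, Bool.false_eq_true, reduceCtorEq,
    iff_true, iff_false, not_lt, reduceIte] at * <;> nlinarith

theorem st_MEMR : ST_MEMR := by
  intro d n χ X hA f
  rw [memr_facets, memr_subs, memr_oneS]
  have hkey : f.Pairwise (· < ·) → f.length = d → (∀ i ∈ f, i < n) → ∀ x, x < n → x ∉ f →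
      0 < sb (χ (f ++ [x])) * dt (d + 1) X (f ++ [x]) := by
    intro h1 h2 h3 x hx hxf
    apply hA
    · rw [List.length_append, h2]
      rfl
    · rw [List.nodup_append]
      refine ⟨h1.imp (fun h => Nat.ne_of_lt h), List.nodup_singleton x, ?_⟩
      intro a ha b hb
      rw [List.mem_singleton] at hb
      subst hb
      rintro rfl
      exact hxf ha
    · intro i hi
      rcases List.mem_append.1 hi with hi | hi
      · exact h3 i hi
      · rw [List.mem_singleton] at hi
        subst hi
        exact hx
  constructor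
  · rintro ⟨⟨h1, h2, h3⟩, h4⟩
    have h3' : ∀ i ∈ f, i < n := fun i hi => (h3 i hi).2
    refine ⟨h1, h2, h3', ?_⟩
    intro x y hx hy hxf hyf
    rw [memr_sign _ _ _ _ (hkey h1 h2 h3' x hx hxf) (hkey h1 h2 h3' y hy hyf)]
    exact h4 x hx y hy hxf hyf
  · rintro ⟨h1, h2, h3, h4⟩
    refine ⟨⟨h1, h2, fun i hi => ⟨Nat.zero_le _, h3 i hi⟩⟩, ?_⟩
    intro x hx y hy hxf hyf
    rw [← memr_sign _ _ _ _ (hkey h1 h2 h3 x hx hxf) (hkey h1 h2 h3 y hy hyf)]
    exact h4 x y hx hy hxf hyf

end Pool.Agent.Helper54.SP
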